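import Pool.Agent.Run7.h787.Fin3

/-!
The Coulomb side of the K-theoretic Hikita conjecture for an arbitrary quiver gauge theory.
-/

open Finset

namespace Pool.Agent.Results.MP_bcf7f7_ag.CoulombFixed

open Run7.h787

/-- For every quiver gauge theory (any quiver, dimension vectors, flavour torus) and every
character `ν` with `ν · n ≠ 0` for `0 ≠ n ≤ v`, the coordinate ring of the schematic `ν`-fixed
points of the deformed K-theoretic Coulomb branch is `R / J` as an algebra over
`R = K_{G_v × F}(pt)`, with `J` independent of `ν`; if no loop has trivial flavour weight, `J` is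
the ideal of the invariant functions `p` with `IsHall p`. -/
theorem result (Q : QuiverData) :
    (∀ ν : Q.I → ℤ, (∀ n : Q.I → ℕ, n ≤ Q.v → n ≠ 0 → ∑ i, ν i * n i ≠ 0) →
      Nonempty ((Q.Coulomb ⧸ Q.moving ν) ≃ₐ[Q.Inv] (Q.Inv ⧸ Q.idealJ))) ∧
    ((∀ e, Q.src e = Q.tgt e → Q.chi e ≠ 0) → Q.idealJ = Ideal.span {p | Q.IsHall p}) :=
  ⟨fun ν hν => QuiverData.main ν hν, QuiverData.idealJ_direct⟩

end Pool.Agent.Results.MP_bcf7f7_ag.CoulombFixed
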